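import Pool.Agent.SGK.Stmts

/-!
# Squad SGK, row ZON
-/

noncomputable section

namespace Pool.Agent.SGK.H90

open Pool.Agent.SGE Pool.Agent.SGK

/-- the three positions of `u` with respect to `z` -/
def Pos3 {V : Type} (a b : V) (S : List (V × List V)) (z u : V) : Prop :=
  (HX a b S u z ∧ ¬ HY S z u) ∨ (HX a b S z u ∧ ¬ HY S z u) ∨
    (HY S z u ∧ ¬ HX a b S z u ∧ ¬ HX a b S u z)

structure ZI {V : Type} (a b : V) (C : List V) (S : List (V × List V)) : Prop where
  i1 : ∀ z, (∃ ℓ, (z, ℓ) ∈ S) → ∃ m ∈ C, z = m ∨ HY S z m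
  i2 : ∀ z, Gd S z → ∀ u ∈ C, u ≠ z → Pos3 a b S z u
  i3 : ∀ z w, z ≠ w → Gd S z → Gd S w →
    (HX a b S z w ∨ HX a b S w z ∨ HY S z w ∨ HY S w z) ∧
    ¬ ((HX a b S z w ∨ HX a b S w z) ∧ (HY S z w ∨ HY S w z))

theorem zi (hCB : CbStmt) (hkir : KirStmt) (hkxm : KxmStmt) (hstp : StpStmt) {V : Type} {a b : V}
    {C : List V} {S : List (V × List V)} (h : Can a b C S) : ZI a b C S := by
  induction h with
  | base h =>
    refine ⟨?_, ?_, ?_⟩
    · rintro z ⟨ℓ, hz⟩
      simp at hz
    · rintro z ⟨⟨ℓ, hz⟩, -⟩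
      simp at hz
    · rintro z w - ⟨⟨ℓ, hz⟩, -⟩
      simp at hz
  | @step P Q mid p q v S h ha hb hv ih =>
    obtain ⟨s1, s2, s3, s4, s5, s6⟩ := hstp h ha hb hv
    obtain ⟨-, -, -, hcon, -, hS⟩ := hCB h
    have hirr := (hkir h).1
    have htr : ∀ {x y z}, HX a b S x y → HX a b S y z → HX a b S x z :=
      fun h1 h2 => Relation.TransGen.trans h1 h2
    have hCv : ∀ u ∈ P ++ p :: (mid ++ q :: Q), u ≠ v := by
      intro u hu huv
      rcases hcon u hu with h1 | h1 | ⟨z, hz, h1⟩
      · exact ha (huv ▸ h1)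
      · exact hb (huv ▸ h1)
      · exact hv z hz (h1.trans huv)
    have hpC : p ∈ P ++ p :: (mid ++ q :: Q) := by simp
    have hqC : q ∈ P ++ p :: (mid ++ q :: Q) := by simp
    have hpw := hkxm h
    rw [List.pairwise_append] at hpw
    obtain ⟨-, hpw2, hpw3⟩ := hpw
    rw [List.pairwise_cons, List.pairwise_append, List.pairwise_cons] at hpw2
    obtain ⟨hp1, -, ⟨hq1, -⟩, hmq⟩ := hpw2
    have oPp : ∀ m ∈ P, HX a b S m p := fun m hm => hpw3 m hm p (by simp)
    have opq : HX a b S p q := hp1 q (by simp)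
    have omq : ∀ m ∈ mid, HX a b S m q := fun m hm => hmq m hm q (by simp)
    have opm : ∀ m ∈ mid, HX a b S p m := fun m hm => hp1 m (by simp [hm])
    have oqQ : ∀ m ∈ Q, HX a b S q m := hq1
    -- good vertices
    have hgd : ∀ z, z ≠ v → Gd ((v, p :: (mid ++ [q])) :: S) z → Gd S z ∧ z ≠ p ∧ z ≠ q := by
      rintro z hz ⟨⟨ℓ, h1⟩, h2, h3⟩
      refine ⟨⟨⟨ℓ, ?_⟩, ?_, ?_⟩, ?_, ?_⟩
      · rcases List.mem_cons.1 h1 with h4 | h4
        · exact absurd (Prod.mk.inj h4).1 hz
        · exact h4
      · rintro ⟨x, hx, hx'⟩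
        exact h2 ⟨x, List.mem_cons_of_mem _ hx, hx'⟩
      · rintro ⟨x, hx, hx'⟩
        exact h3 ⟨x, List.mem_cons_of_mem _ hx, hx'⟩
      · rintro rfl
        exact h2 ⟨_, List.mem_cons_self, rfl⟩
      · rintro rfl
        refine h3 ⟨_, List.mem_cons_self, ?_⟩
        change (p :: (mid ++ [z])).getLast? = some z
        rw [← List.cons_append]
        exact List.getLast?_concat ..
    -- two contradictions
    have L1 : ∀ z, Gd S z → ∀ m ∈ P ++ p :: (mid ++ q :: Q), HX a b S m z →
        (z = m ∨ HY S z m) → False := by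
      intro z hz m hm h1 h2
      have hne : m ≠ z := by
        rintro rfl
        exact hirr _ h1
      rcases h2 with h2 | h2
      · exact hne h2.symm
      · rcases ih.i2 z hz m hm hne with h3 | h3 | h3
        · exact h3.2 h2
        · exact h3.2 h2
        · exact h3.2.2 h1
    have L2 : ∀ z, Gd S z → ∀ m ∈ P ++ p :: (mid ++ q :: Q), HX a b S z m →
        (z = m ∨ HY S z m) → False := by
      intro z hz m hm h1 h2
      have hne : m ≠ z := by
        rintro rfl
        exact hirr _ h1
      rcases h2 with h2 | h2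
      · exact hne h2.symm
      · rcases ih.i2 z hz m hm hne with h3 | h3 | h3
        · exact h3.2 h2
        · exact h3.2 h2
        · exact h3.2.1 h1
    have hlC : ∀ m ∈ p :: (mid ++ [q]), m ∈ P ++ p :: (mid ++ q :: Q) := by
      intro m hm
      simp only [List.mem_cons, List.mem_append, List.not_mem_nil, or_false] at hm ⊢
      tauto
    -- the new vertex
    have T : ∀ z, z ≠ v → Gd ((v, p :: (mid ++ [q])) :: S) z →
        Pos3 a b ((v, p :: (mid ++ [q])) :: S) z v := by
      intro z hzv hz'
      obtain ⟨hz, hzp, hzq⟩ := hgd z hzv hz'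
      unfold Pos3
      rw [s3 z hzv, s2 z hzv, s5 z]
      rcases ih.i2 z hz q hqC (Ne.symm hzq) with hq | hq
      · -- q is left
        left
        refine ⟨Or.inr hq.1, ?_⟩
        rintro ⟨m, hm, h1⟩
        refine L1 z hz m (hlC m hm) ?_ h1
        simp only [List.mem_cons, List.mem_append, List.not_mem_nil, or_false] at hm
        rcases hm with rfl | hm | rfl
        · exact htr opq hq.1
        · exact htr (omq m hm) hq.1
        · exact hq.1
      · rcases ih.i2 z hz p hpC (Ne.symm hzp) with hp | hp | hp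
        · -- p is left, q is right or above
          right; right
          refine ⟨?_, ?_, ?_⟩
          · rcases hq with hq | hq
            · obtain ⟨m, hm, h1⟩ := ih.i1 z hz.1
              simp only [List.mem_cons, List.mem_append] at hm
              rcases hm with hm | rfl | hm | rfl | hm
              · exact (L1 z hz m (by simp [hm]) (htr (oPp m hm) hp.1) h1).elim
              · exact (L1 z hz m hpC hp.1 h1).elim
              · exact ⟨m, by simp [hm], h1⟩
              · exact (L2 z hz m hqC hq.1 h1).elim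
              · exact (L2 z hz m (by simp [hm]) (htr hq.1 (oqQ m hm)) h1).elim
            · exact ⟨q, by simp, Or.inr hq.1⟩
          · rintro (h1 | h1)
            · exact hzp h1
            · exact hirr _ (htr h1 hp.1)
          · rintro (h1 | h1)
            · exact hzq h1
            · rcases hq with hq | hq
              · exact hirr _ (htr h1 hq.1)
              · exact hq.2.2 h1
        · -- p is right
          right; left
          refine ⟨Or.inr hp.1, ?_⟩
          rintro ⟨m, hm, h1⟩
          refine L2 z hz m (hlC m hm) ?_ h1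
          simp only [List.mem_cons, List.mem_append, List.not_mem_nil, or_false] at hm
          rcases hm with rfl | hm | rfl
          · exact hp.1
          · exact htr hp.1 (opm m hm)
          · exact htr hp.1 opq
        · -- p is above
          right; right
          refine ⟨⟨p, by simp, Or.inr hp.1⟩, ?_, ?_⟩
          · rintro (h1 | h1)
            · exact hzp h1
            · exact hp.2.1 h1
          · rintro (h1 | h1)
            · exact hzq h1
            · rcases hq with hq | hq
              · exact hirr _ (htr h1 hq.1)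
              · exact hq.2.2 h1
    refine ⟨?_, ?_, ?_⟩
    · rintro z ⟨ℓ, hz⟩
      by_cases hzv : z = v
      · exact ⟨v, by simp, Or.inl hzv⟩
      · have hz2 : ∃ ℓ, (z, ℓ) ∈ S := by
          rcases List.mem_cons.1 hz with h4 | h4
          · exact absurd (Prod.mk.inj h4).1 hzv
          · exact ⟨ℓ, h4⟩
        obtain ⟨m, hm, h1⟩ := ih.i1 z hz2
        by_cases hmm : m ∈ mid
        · exact ⟨v, by simp, Or.inr ((s5 z).2 ⟨m, by simp [hmm], h1⟩)⟩
        · refine ⟨m, ?_, ?_⟩
          · simp only [List.mem_cons, List.mem_append] at hm ⊢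
            tauto
          · rcases h1 with h1 | h1
            · exact Or.inl h1
            · exact Or.inr ((s4 z m hzv (hCv m hm)).2 h1)
    · intro z hz u hu huz
      by_cases hzv : z = v
      · subst hzv
        have hu' : u ∈ P ∨ u = p ∨ u = q ∨ u ∈ Q := by
          simp only [List.mem_cons, List.mem_append] at hu
          tauto
        rcases hu' with hu' | rfl | rfl | hu'
        · exact Or.inl ⟨(s2 u huz).2 (Or.inr (oPp u hu')), s6 u⟩
        · exact Or.inl ⟨(s2 u huz).2 (Or.inl rfl), s6 u⟩
        · exact Or.inr (Or.inl ⟨(s3 u huz).2 (Or.inl rfl), s6 u⟩)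
        · exact Or.inr (Or.inl ⟨(s3 u huz).2 (Or.inr (oqQ u hu')), s6 u⟩)
      · by_cases huv : u = v
        · subst huv
          exact T z hzv hz
        · have huC : u ∈ P ++ p :: (mid ++ q :: Q) := by
            simp only [List.mem_cons, List.mem_append] at hu ⊢
            tauto
          have h1 := ih.i2 z (hgd z hzv hz).1 u huC huz
          unfold Pos3 at h1 ⊢
          rw [s1 u z huv hzv, s1 z u hzv huv, s4 z u hzv huv]
          exact h1
    · intro z w hzw hz hw
      by_cases hzv : z = v
      · subst hzv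
        have hwz : w ≠ z := Ne.symm hzw
        rcases T w hwz hw with h1 | h1 | h1
        · exact ⟨Or.inl h1.1, fun h2 => h2.2.elim (s6 w) h1.2⟩
        · exact ⟨Or.inr (Or.inl h1.1), fun h2 => h2.2.elim (s6 w) h1.2⟩
        · exact ⟨Or.inr (Or.inr (Or.inr h1.1)), fun h2 => h2.1.elim h1.2.2 h1.2.1⟩
      · by_cases hwv : w = v
        · subst hwv
          rcases T z hzv hz with h1 | h1 | h1
          · exact ⟨Or.inr (Or.inl h1.1), fun h2 => h2.2.elim h1.2 (s6 z)⟩
          · exact ⟨Or.inl h1.1, fun h2 => h2.2.elim h1.2 (s6 z)⟩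
          · exact ⟨Or.inr (Or.inr (Or.inl h1.1)), fun h2 => h2.1.elim h1.2.1 h1.2.2⟩
        · have h1 := ih.i3 z w hzw (hgd z hzv hz).1 (hgd w hwv hw).1
          rw [s1 z w hzv hwv, s1 w z hwv hzv, s4 z w hzv hwv, s4 w z hwv hzv]
          exact h1

theorem zon (hCB : CbStmt) (hkir : KirStmt) (hkxm : KxmStmt) (hstp : StpStmt) : ZonStmt := by
  intro V a b C S h
  exact (zi hCB hkir hkxm hstp h).i3

end Pool.Agent.SGK.H90
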