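import Pool.Agent.Helper90_SGK.Main
import Pool.Agent.Helper90_SGK.Zon

/-!
# Squad SGK: the final theorem
-/

noncomputable section

namespace Pool.Agent.SGK.H90

open Pool.Agent.SGE Pool.Agent.SGK

theorem zonS : ZonStmt := zon Pool.Agent.SGE.H29.cb kirS kxmS stpS

/-- the final theorem -/
theorem mainAll : Main2Stmt := mainS zonS

end Pool.Agent.SGK.H90
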