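import Pool.Agent.Helper90_SGK.All

/-!
# Squad SGK: several small graphs at the same time
-/

noncomputable section

namespace Pool.Agent.SGK.H90

open Pool.Agent.SGE Pool.Agent.SGK

/-- disjoint union -/
def sig {ι : Type} {V : ι → Type} (G : ∀ i, SimpleGraph (V i)) : SimpleGraph (Σ i, V i) :=
  SimpleGraph.fromRel (fun a b => ∃ (i : ι) (u v : V i), a = ⟨i, u⟩ ∧ b = ⟨i, v⟩ ∧ (G i).Adj u v)

theorem sig_adj {ι : Type} {V : ι → Type} (G : ∀ i, SimpleGraph (V i)) (a b : Σ i, V i) :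
    (sig G).Adj a b ↔ ∃ (i : ι) (u v : V i), a = ⟨i, u⟩ ∧ b = ⟨i, v⟩ ∧ (G i).Adj u v := by
  unfold sig
  rw [SimpleGraph.fromRel_adj]
  constructor
  · rintro ⟨_, h | ⟨i, u, v, h1, h2, h3⟩⟩
    · exact h
    · exact ⟨i, v, u, h2, h1, h3.symm⟩
  · rintro ⟨i, u, v, h1, h2, h3⟩
    refine ⟨?_, Or.inl ⟨i, u, v, h1, h2, h3⟩⟩
    rintro rfl
    rw [h1] at h2
    obtain rfl : u = v := eq_of_heq (Sigma.mk.inj_iff.1 h2).2
    exact h3.ne rfl

theorem draw_comp {V W : Type} {G : SimpleGraph V} {H : SimpleGraph W} {f : W → ℝ × ℝ}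
    (h : Draw H f) (φ : V → W) (hφ : Function.Injective φ)
    (ha : ∀ u v, G.Adj u v → H.Adj (φ u) (φ v)) : Draw G (fun v => f (φ v)) where
  inj := h.inj.comp hφ
  cross := by
    intro a b c d hab hcd hne
    refine h.cross _ _ _ _ (ha _ _ hab) (ha _ _ hcd) ?_
    intro he
    apply hne
    rw [Sym2.eq_iff] at he ⊢
    rcases he with ⟨h1, h2⟩ | ⟨h1, h2⟩
    · exact Or.inl ⟨hφ h1, hφ h2⟩
    · exact Or.inr ⟨hφ h1, hφ h2⟩
  vert := by
    intro v a b hab hv
    rcases h.vert _ _ _ (ha _ _ hab) hv with h1 | h1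
    · exact Or.inl (hφ h1)
    · exact Or.inr (hφ h1)

theorem seg_bd {M : ℝ} {t p q z : ℝ × ℝ} (hp : |p.1| < M) (hq : |q.1| < M)
    (hz : z ∈ segment ℝ (t + p) (t + q)) : |z.1 - t.1| < M := by
  obtain ⟨a, b, ha, hb, hab, rfl⟩ := hz
  have h := (convex_Ioo (-M) M) (abs_lt.1 hp) (abs_lt.1 hq) ha hb hab
  have e : (a • (t + p) + b • (t + q)).1 - t.1 = a • p.1 + b • q.1 := by
    simp only [Prod.fst_add, Prod.smul_fst, smul_eq_mul]
    have hb' : b = 1 - a := by linarith
    rw [hb']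
    ring
  rw [e]
  exact abs_lt.2 h

theorem sep {M : ℝ} {x : ℝ} {i j : ℕ} (h1 : |x - 2 * M * (i : ℝ)| < M)
    (h2 : |x - 2 * M * (j : ℝ)| < M) : i = j := by
  have hM : 0 < M := lt_of_le_of_lt (abs_nonneg _) h1
  rw [abs_lt] at h1 h2
  by_contra hne
  rcases lt_or_gt_of_ne hne with h | h
  · have h' : (i : ℝ) + 1 ≤ j := by exact_mod_cast h
    have := mul_le_mul_of_nonneg_left h' (by linarith : 0 ≤ 2 * M)
    linarith
  · have h' : (j : ℝ) + 1 ≤ i := by exact_mod_cast h
    have := mul_le_mul_of_nonneg_left h' (by linarith : 0 ≤ 2 * M)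
    linarith

theorem sig_draw {ι : Type} [Finite ι] {V : ι → Type} [∀ i, Finite (V i)]
    (G : ∀ i, SimpleGraph (V i)) (h : ∀ i, ∃ f, Draw (G i) f) : ∃ f, Draw (sig G) f := by
  classical
  choose f hf using h
  obtain ⟨M, hM⟩ : ∃ M : ℝ, ∀ a : (Σ i, V i), |(f a.1 a.2).1| < M := by
    obtain ⟨M, hM⟩ := (Set.finite_range (fun a : (Σ i, V i) => |(f a.1 a.2).1|)).bddAbove
    exact ⟨M + 1, fun a => lt_of_le_of_lt (hM ⟨a, rfl⟩) (by linarith)⟩
  obtain ⟨m, ⟨e⟩⟩ := Finite.exists_equiv_fin ι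
  let t : ι → ℝ × ℝ := fun i => (2 * M * ((e i : ℕ) : ℝ), 0)
  let F : (Σ i, V i) → ℝ × ℝ := fun a => t a.1 + f a.1 a.2
  have hseg : ∀ i (u v : V i) z, z ∈ segment ℝ (t i + f i u) (t i + f i v) →
      |z.1 - (t i).1| < M := fun i u v z hz => seg_bd (hM ⟨i, u⟩) (hM ⟨i, v⟩) hz
  have hsep : ∀ i j (z : ℝ × ℝ), |z.1 - (t i).1| < M → |z.1 - (t j).1| < M → i = j :=
    fun i j z h1 h2 => e.injective (Fin.ext (sep h1 h2))
  have hpt : ∀ i (u : V i), |(t i + f i u).1 - (t i).1| < M := fun i u =>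
    hseg i u u _ (by rw [segment_same]; exact rfl)
  refine ⟨F, ?_, ?_, ?_⟩
  · rintro ⟨i, u⟩ ⟨j, v⟩ huv
    have huv' : t i + f i u = t j + f j v := huv
    have hij : i = j := by
      refine hsep i j (t i + f i u) (hpt i u) ?_
      rw [huv']
      exact hpt j v
    subst hij
    rw [(hf i).inj (add_left_cancel huv')]
  · intro a b c d hab hcd hne z hz
    rw [sig_adj] at hab hcd
    obtain ⟨i, u, v, rfl, rfl, huv⟩ := hab
    obtain ⟨j, u', v', rfl, rfl, huv'⟩ := hcd
    obtain ⟨hz1, hz2⟩ := hz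
    have hz1' : z ∈ segment ℝ (t i + f i u) (t i + f i v) := hz1
    have hz2' : z ∈ segment ℝ (t j + f j u') (t j + f j v') := hz2
    have hij : i = j := hsep i j z (hseg _ _ _ _ hz1') (hseg _ _ _ _ hz2')
    subst hij
    have ez : z = t i + (z - t i) := by abel
    rw [ez, mem_segment_translate] at hz1' hz2'
    have hne' : s(u, v) ≠ s(u', v') := by
      intro he
      apply hne
      rw [Sym2.eq_iff] at he ⊢
      rcases he with ⟨h1, h2⟩ | ⟨h1, h2⟩
      · exact Or.inl ⟨by rw [h1], by rw [h2]⟩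
      · exact Or.inr ⟨by rw [h1], by rw [h2]⟩
    obtain ⟨k1, k2⟩ := (hf i).cross u v u' v' huv huv' hne' ⟨hz1', hz2'⟩
    constructor
    · rcases k1 with k | k
      · left
        show z = t i + f i u
        rw [ez, k]
      · right
        show z = t i + f i v
        rw [ez, Set.mem_singleton_iff.1 k]
    · rcases k2 with k | k
      · left
        show z = t i + f i u'
        rw [ez, k]
      · right
        show z = t i + f i v'
        rw [ez, Set.mem_singleton_iff.1 k]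
  · rintro ⟨j, w⟩ a b hab hv
    rw [sig_adj] at hab
    obtain ⟨i, u, v, rfl, rfl, huv⟩ := hab
    have hv' : t j + f j w ∈ segment ℝ (t i + f i u) (t i + f i v) := hv
    have hij : i = j := hsep i j _ (hseg _ _ _ _ hv') (hpt j w)
    subst hij
    rw [mem_segment_translate] at hv'
    rcases (hf i).vert w u v huv hv' with h1 | h1
    · left; rw [h1]
    · right; rw [h1]

theorem draw_bot {V : Type} [Finite V] : ∃ f, Draw (⊥ : SimpleGraph V) f := by
  obtain ⟨m, ⟨e⟩⟩ := Finite.exists_equiv_fin V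
  refine ⟨fun v => (((e v : ℕ) : ℝ), 0), ?_, ?_, ?_⟩
  · intro u v huv
    have h1 := congrArg Prod.fst huv
    have h2 : ((e u : ℕ) : ℝ) = ((e v : ℕ) : ℝ) := h1
    exact e.injective (Fin.ext (by exact_mod_cast h2))
  · intro a b c d hab
    exact absurd hab (by simp)
  · intro v a b hab
    exact absurd hab (by simp)

theorem ncard_le_k {k : ℕ} (s : Set (Fin k)) : s.ncard ≤ k := by
  calc s.ncard ≤ (Set.univ : Set (Fin k)).ncard :=
        Set.ncard_le_ncard (Set.subset_univ _) (Set.toFinite _)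
    _ = k := by rw [Set.ncard_univ, Nat.card_eq_fintype_card, Fintype.card_fin]

/-- components -/
def VV {ι : Type} (r : ℕ) {k : ι → ℕ} (G : ∀ i, SimpleGraph (Fin (k i))) : Option ι → Type
  | none => Fin r
  | some i => (G i).support

def HH {ι : Type} (r : ℕ) {k : ι → ℕ} (G : ∀ i, SimpleGraph (Fin (k i))) :
    ∀ o, SimpleGraph (VV r G o)
  | none => (⊥ : SimpleGraph (Fin r))
  | some i => (G i).comap (Subtype.val : (G i).support → Fin (k i))

instance {ι : Type} (r : ℕ) {k : ι → ℕ} (G : ∀ i, SimpleGraph (Fin (k i))) (o : Option ι) :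
    Finite (VV r G o) := by
  cases o with
  | none => exact inferInstanceAs (Finite (Fin r))
  | some i => exact inferInstanceAs (Finite (G i).support)

/-- several small graphs -/
theorem mainFam (n : ℕ) (G₁ : SimpleGraph (Fin n)) {ι : Type} [Fintype ι] (k : ι → ℕ)
    (hk : ∀ i, k i ≤ n) (G : ∀ i, SimpleGraph (Fin (k i))) (h₁ : ∃ f, Draw G₁ f)
    (h₂ : ∀ i, ∃ f, Draw (G i) f) (h : 6 * ∑ i, (G i).support.ncard ≤ n + 7) :
    ∃ P : Finset (ℝ × ℝ), P.card = n ∧ (∃ f, Draw G₁ f ∧ ∀ u, f u ∈ P) ∧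
      ∀ i, ∃ f, Draw (G i) f ∧ ∀ u, f u ∈ P := by
  classical
  set K := ∑ i, (G i).support.ncard with hK
  have hKn : K ≤ n := by
    rcases Nat.eq_zero_or_pos n with h0 | h0
    · have : K ≤ 0 := by
        rw [hK]
        refine le_of_eq (Finset.sum_eq_zero fun i _ => ?_)
        have h1 := ncard_le_k (G i).support
        have h2 := hk i
        omega
      omega
    · omega
  have hcard : Nat.card (Σ o, VV (n - K) G o) = n := by
    rw [Nat.card_sigma, Fintype.sum_option]
    have e1 : Nat.card (VV (n - K) G none) = n - K := by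
      show Nat.card (Fin (n - K)) = n - K
      simp
    have e2 : ∀ i, Nat.card (VV (n - K) G (some i)) = (G i).support.ncard := fun i => rfl
    rw [e1, Finset.sum_congr rfl (fun i _ => e2 i), ← hK]
    omega
  let E : (Σ o, VV (n - K) G o) ≃ Fin n := Finite.equivFinOfCardEq hcard
  let H : SimpleGraph (Fin n) := (sig (HH (n - K) G)).comap E.symm
  have hHp : ∃ f, Draw H f := by
    obtain ⟨f, hf⟩ := sig_draw (HH (n - K) G) (by
      intro o
      cases o with
      | none => exact draw_bot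
      | some i =>
        obtain ⟨f, hf⟩ := h₂ i
        exact ⟨_, draw_comp hf (Subtype.val : (G i).support → Fin (k i))
          Subtype.val_injective (fun u v huv => huv)⟩)
    exact ⟨_, draw_comp hf E.symm E.symm.injective (fun u v huv => huv)⟩
  have hHs : H.support.ncard ≤ K := by
    have hsub : H.support ⊆ (fun x : (Σ i, (G i).support) =>
        E (⟨some x.1, x.2⟩ : Σ o, VV (n - K) G o)) '' Set.univ := by
      intro a ha
      rw [SimpleGraph.mem_support] at ha
      obtain ⟨b, hab⟩ := ha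
      have hab' : (sig (HH (n - K) G)).Adj (E.symm a) (E.symm b) := hab
      rw [sig_adj] at hab'
      obtain ⟨o, u, v, hu, hv, huv⟩ := hab'
      cases o with
      | none => exact absurd huv (by simp [HH])
      | some i =>
        refine ⟨⟨i, u⟩, Set.mem_univ _, ?_⟩
        show E ⟨some i, u⟩ = a
        rw [← hu]
        exact E.apply_symm_apply a
    calc H.support.ncard ≤ _ := Set.ncard_le_ncard hsub (Set.toFinite _)
      _ ≤ (Set.univ : Set (Σ i, (G i).support)).ncard := Set.ncard_image_le (Set.toFinite _)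
      _ = K := by
        rw [Set.ncard_univ, Nat.card_sigma, hK]
        rfl
  obtain ⟨P, hP, hf, g, hg, hg'⟩ := mainAll n n le_rfl G₁ H h₁ hHp (by omega)
  refine ⟨P, hP, hf, fun i => ?_⟩
  let F0 : Fin (k i) → Fin n := fun u =>
    if hu : u ∈ (G i).support then E (⟨some i, ⟨u, hu⟩⟩ : Σ o, VV (n - K) G o)
    else Fin.castLE (hk i) u
  let S : Finset (Fin (k i)) := (G i).support.toFinset
  have hF0 : ∀ u (hu : u ∈ (G i).support),
      F0 u = E (⟨some i, ⟨u, hu⟩⟩ : Σ o, VV (n - K) G o) := fun u hu => dif_pos hu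
  have hinj : Set.InjOn F0 S := by
    intro u hu v hv huv
    have hu' : u ∈ (G i).support := by simpa [S] using hu
    have hv' : v ∈ (G i).support := by simpa [S] using hv
    rw [hF0 u hu', hF0 v hv'] at huv
    have h3 := E.injective huv
    have h4 : (⟨u, hu'⟩ : (G i).support) = ⟨v, hv'⟩ := by
      have := (Sigma.mk.inj_iff.1 h3).2
      exact eq_of_heq this
    exact congrArg Subtype.val h4
  obtain ⟨T, hT1, _, hT2⟩ := Finset.exists_subsuperset_card_eq
    (Finset.subset_univ (S.image F0)) (n := k i)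
    (le_trans Finset.card_image_le (le_trans (Finset.card_le_univ _) (by simp)))
    (by simpa using hk i)
  obtain ⟨φ, hφ⟩ := Finset.exists_equiv_extend_of_card_eq (by rw [hT2]; simp) hT1 hinj
  refine ⟨_, draw_comp hg (fun u => (φ u : Fin n))
    (fun u v huv => φ.injective (Subtype.ext huv)) ?_, fun u => hg' _⟩
  intro u v huv
  have hu : u ∈ (G i).support := (SimpleGraph.mem_support _).2 ⟨v, huv⟩
  have hv : v ∈ (G i).support := (SimpleGraph.mem_support _).2 ⟨u, huv.symm⟩
  have e1 : (φ u : Fin n) = E (⟨some i, ⟨u, hu⟩⟩ : Σ o, VV (n - K) G o) := by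
    rw [hφ u (by simpa [S] using hu), hF0 u hu]
  have e2 : (φ v : Fin n) = E (⟨some i, ⟨v, hv⟩⟩ : Σ o, VV (n - K) G o) := by
    rw [hφ v (by simpa [S] using hv), hF0 v hv]
  show (sig (HH (n - K) G)).Adj (E.symm (φ u : Fin n)) (E.symm (φ v : Fin n))
  rw [e1, e2, E.symm_apply_apply, E.symm_apply_apply, sig_adj]
  exact ⟨some i, _, _, rfl, rfl, huv⟩

end Pool.Agent.SGK.H90
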