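import Pool.Agent.SGK.Stmts

/-!
# Squad SGK: assembly, with isolated vertices
-/

noncomputable section

namespace Pool.Agent.SGK.H90

open Pool.Agent.SGE Pool.Agent.SGK

/-- the final theorem with isolated vertices in `G₂` -/
def Main2Stmt : Prop := ∀ n k : ℕ, k ≤ n → ∀ (G₁ : SimpleGraph (Fin n)) (G₂ : SimpleGraph (Fin k)),
  (∃ f, Draw G₁ f) → (∃ f, Draw G₂ f) → 6 * G₂.support.ncard ≤ n + 7 →
  ∃ P : Finset (ℝ × ℝ), P.card = n ∧ (∃ f, Draw G₁ f ∧ ∀ u, f u ∈ P) ∧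
    ∃ f, Draw G₂ f ∧ ∀ u, f u ∈ P

theorem ev_inj {n : ℕ} : Function.Injective (ev : Fin n → W n) := by
  intro u w h
  exact Sum.inl_injective (Option.some_injective _ h)

/-- the orders of `G₂` -/
theorem ord2 (hgeo : GeoStmt) (hint : IntStmt) (hncx : NcxStmt) {n : ℕ} {G : SimpleGraph (Fin n)}
    (hG : ∃ f, Draw G f) :
    ∃ x y : Fin n → ℝ, Function.Injective x ∧ Function.Injective y ∧ NC G x y := by
  obtain ⟨S, hS, hall, hadj⟩ := hgeo G hG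
  have hcan := hS.can
  obtain ⟨X, Y, hO, hd, -⟩ := hint hcan
  refine ⟨fun v => X (Sum.inl v), fun v => Y (Sum.inl v), ?_, ?_, ?_⟩
  · intro u w h
    by_contra hne
    exact (hd (Sum.inl u) (Sum.inl w) (Or.inr (Or.inr (hall u))) (Or.inr (Or.inr (hall w)))
      (fun h' => hne (Sum.inl_injective h'))).1 h
  · intro u w h
    by_contra hne
    exact (hd (Sum.inl u) (Sum.inl w) (Or.inr (Or.inr (hall u))) (Or.inr (Or.inr (hall w)))
      (fun h' => hne (Sum.inl_injective h'))).2 h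
  · have key : ∀ u w, G.Adj u w → Y (Sum.inl u) < Y (Sum.inl w) →
        ∃ ℓ, (Sum.inl w, ℓ) ∈ S ∧ Sum.inl u ∈ ℓ := by
      intro u w huw hlt
      rcases hadj u w huw with ⟨⟨s, ℓ⟩, hs, h1, h2⟩ | ⟨⟨s, ℓ⟩, hs, h1, h2⟩
      · exfalso
        simp only at h1 h2
        subst h1
        exact lt_asymm hlt (hO.up _ _ _ hs h2)
      · simp only at h1 h2
        subst h1
        exact ⟨ℓ, hs, h2⟩
    intro a₁ b₁ a₂ b₂ h1 h2 h3 h4 h5
    obtain ⟨ℓ₁, h6, h7⟩ := key a₁ b₁ h1 h3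
    obtain ⟨ℓ₂, h8, h9⟩ := key a₂ b₂ h2 (lt_trans h4 h5)
    exact hncx hcan hO _ ℓ₁ _ _ ℓ₂ _ h6 h7 h8 h9 h5 h4

/-- an injective map on a subset extends -/
theorem ext_inj {n k : ℕ} (hk : k ≤ n) (T : Finset (Fin k)) (g : Fin k → Fin n)
    (hg : Set.InjOn g T) : ∃ ψ : Fin k → Fin n, Function.Injective ψ ∧ ∀ i ∈ T, ψ i = g i := by
  classical
  have h1 : (T.image g).card ≤ k := Finset.card_image_le.trans (by simpa using T.card_le_univ)
  obtain ⟨t, ht1, -, ht2⟩ := Finset.exists_subsuperset_card_eq (Finset.subset_univ (T.image g)) h1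
    (by simpa using hk)
  obtain ⟨e, he⟩ := Finset.exists_equiv_extend_of_card_eq (t := t) (by simp [ht2]) ht1 hg
  exact ⟨fun i => (e i : Fin n), fun i j h => e.injective (Subtype.ext h), he⟩

/-- a linear extension with prescribed order on `A` -/
theorem lexA (hlex : LexStmt) {n : ℕ} {R : W n → W n → Prop}
    (ht : ∀ u v w, R u v → R v w → R u w) (hi : ∀ u, ¬ R u u) (A : Finset (Fin n))
    (f : {u // u ∈ A} → ℝ) (hf : Function.Injective f)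
    (hR : ∀ u w : {u // u ∈ A}, R (ev u.1) (ev w.1) → f u < f w) :
    ∃ x : W n → ℕ, Function.Injective x ∧ (∀ v, x v ≤ Fintype.card (W n)) ∧
      (∀ u w, R u w → x u < x w) ∧
      ∀ u w : {u // u ∈ A}, (x (ev u.1) < x (ev w.1) ↔ f u < f w) := by
  classical
  obtain ⟨F, hF⟩ : ∃ F : W n → ℝ, ∀ u : {u // u ∈ A}, F (ev u.1) = f u := by
    refine ⟨fun w : W n => if h : ∃ u : {u // u ∈ A}, w = ev u.1 then f h.choose else 0, ?_⟩
    intro u
    have h : ∃ u' : {u // u ∈ A}, (ev u.1 : W n) = ev u'.1 := ⟨u, rfl⟩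
    simp only [dif_pos h]
    congr 1
    exact Subtype.ext (ev_inj h.choose_spec.symm)
  obtain ⟨x, hx1, hx2, hx3, hx4⟩ := hlex R ht hi {w | ∃ u : {u // u ∈ A}, w = ev u.1} F
    (by
      rintro _ ⟨u, rfl⟩ _ ⟨w, rfl⟩ h
      rw [hF u, hF w] at h
      rw [hf h])
    (by
      rintro _ ⟨u, rfl⟩ _ ⟨w, rfl⟩ h
      rw [hF u, hF w]
      exact hR u w h)
  refine ⟨x, hx1, fun v => (hx2 v).le, hx3, fun u w => ?_⟩
  have h1 := hx4 _ ⟨u, rfl⟩ _ ⟨w, rfl⟩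
  rw [hF u, hF w] at h1
  exact h1

theorem fin2 (hgeo : GeoStmt) (hint : IntStmt) (hncx : NcxStmt) (hexp : ExpStmt) (hsel : SelStmt)
    (hkir : KirStmt) (hzon : ZonStmt) (hcjo : CjoStmt) (hlex : LexStmt) : Main2Stmt := by
  classical
  intro n k hk G₁ G₂ hG₁ hG₂ h6
  have hTc : G₂.support.toFinset.card = G₂.support.ncard := (Set.ncard_eq_toFinset_card' _).symm
  set T : Finset (Fin k) := G₂.support.toFinset with hT
  have hsk : G₂.support.ncard ≤ n := by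
    rw [← hTc]
    exact (by simpa using T.card_le_univ : T.card ≤ k).trans hk
  obtain ⟨a, b, C, S, hcan, hall, hadj, A, hA, hgd⟩ := hsel hsk h6 G₁ hG₁
  obtain ⟨x₂, y₂, hx₂, hy₂, hnc₂⟩ := ord2 hgeo hint hncx hG₂
  have e2 : {i // i ∈ T} ≃ Fin G₂.support.ncard := T.equivFinOfCardEq hTc
  have hcU : Fintype.card {u // u ∈ A} = G₂.support.ncard := by
    rw [Fintype.card_coe, hA]
  obtain ⟨φ, hφ1, hφ2⟩ := hcjo (U := {u // u ∈ A}) (fun u w => HX a b S (ev u.1) (ev w.1))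
    (fun u w => HY S (ev u.1) (ev w.1)) G₂.support.ncard hcU
    (fun u v w h1 h2 => Relation.TransGen.trans h1 h2) (fun u h => (hkir hcan).1 _ h)
    (fun u v w h1 h2 => Relation.TransGen.trans h1 h2) (fun u h => (hkir hcan).2 _ h)
    (fun u w huw => (hzon hcan _ _ (fun h => huw (Subtype.ext (ev_inj h))) (hgd _ u.2)
      (hgd _ w.2)).1)
    (fun u w h => by
      by_cases huw : u = w
      · subst huw
        rcases h.1 with h1 | h1
        · exact (hkir hcan).1 _ h1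
        · exact (hkir hcan).1 _ h1
      · exact (hzon hcan _ _ (fun h => huw (Subtype.ext (ev_inj h))) (hgd _ u.2)
          (hgd _ w.2)).2 h)
    (fun i => x₂ (e2.symm i).1) (fun i => y₂ (e2.symm i).1)
    (fun i j h => e2.symm.injective (Subtype.ext (hx₂ h)))
    (fun i j h => e2.symm.injective (Subtype.ext (hy₂ h)))
  obtain ⟨x, hx1, hx2, hx3, hx4⟩ := lexA hlex (R := HX a b S)
    (fun u v w h1 h2 => Relation.TransGen.trans h1 h2) (hkir hcan).1 A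
    (fun u => x₂ (e2.symm (φ u)).1)
    (fun u w h => φ.injective (e2.symm.injective (Subtype.ext (hx₂ h)))) hφ1
  obtain ⟨y, hy1, hy2, hy3, hy4⟩ := lexA hlex (R := HY S)
    (fun u v w h1 h2 => Relation.TransGen.trans h1 h2) (hkir hcan).2 A
    (fun u => y₂ (e2.symm (φ u)).1)
    (fun u w h => φ.injective (e2.symm.injective (Subtype.ext (hy₂ h)))) hφ2
  -- the map of the vertices
  obtain ⟨ψ, hψ, hψT⟩ := ext_inj hk T
    (fun i => if h : i ∈ T then (φ.symm (e2 ⟨i, h⟩)).1 else Fin.castLE hk i)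
    (by
      intro i hi j hj h
      have hi' : i ∈ T := hi
      have hj' : j ∈ T := hj
      simp only [dif_pos hi', dif_pos hj'] at h
      have h1 := e2.injective (φ.symm.injective (Subtype.ext h))
      exact congrArg Subtype.val h1)
  have hψ' : ∀ i (h : i ∈ T), ψ i = (φ.symm (e2 ⟨i, h⟩)).1 := by
    intro i h
    rw [hψT i h, dif_pos h]
  have hcx : ∀ i ∈ T, ∀ j ∈ T, (x (ev (ψ i)) < x (ev (ψ j)) ↔ x₂ i < x₂ j) := by
    intro i hi j hj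
    rw [hψ' i hi, hψ' j hj, hx4]
    simp only [Equiv.apply_symm_apply, Equiv.symm_apply_apply]
  have hcy : ∀ i ∈ T, ∀ j ∈ T, (y (ev (ψ i)) < y (ev (ψ j)) ↔ y₂ i < y₂ j) := by
    intro i hi j hj
    rw [hψ' i hi, hψ' j hj, hy4]
    simp only [Equiv.apply_symm_apply, Equiv.symm_apply_apply]
  -- the order of the sequence
  have hO : Ord a b S (fun v => (x v : ℝ)) (fun v => (y v : ℝ)) := by
    refine ⟨?_, ?_, ?_, ?_⟩
    · exact Nat.cast_lt.2 (hx3 _ _ (Relation.TransGen.single (Or.inl ⟨rfl, rfl⟩)))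
    · intro v ℓ u h1 h2
      exact Nat.cast_lt.2 (hx3 _ _ (Relation.TransGen.single (Or.inr (Or.inl ⟨ℓ, h1, h2⟩))))
    · intro v ℓ u h1 h2
      exact Nat.cast_lt.2 (hx3 _ _ (Relation.TransGen.single (Or.inr (Or.inr ⟨ℓ, h1, h2⟩))))
    · intro v ℓ u h1 h2
      exact Nat.cast_lt.2 (hy3 _ _ (Relation.TransGen.single ⟨ℓ, h1, h2⟩))
  have hnc₁ : NC G₁ (fun v => x (ev v)) (fun v => y (ev v)) := by
    have key : ∀ u w, G₁.Adj u w → y (ev u) < y (ev w) → ∃ ℓ, (ev w, ℓ) ∈ S ∧ ev u ∈ ℓ := by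
      intro u w huw hlt
      rcases hadj u w huw with ⟨ℓ, hs, h2⟩ | ⟨ℓ, hs, h2⟩
      · exfalso
        exact lt_asymm hlt (hy3 _ _ (Relation.TransGen.single ⟨ℓ, hs, h2⟩))
      · exact ⟨ℓ, hs, h2⟩
    intro a₁ b₁ a₂ b₂ h1 h2 h3 h4 h5
    obtain ⟨ℓ₁, h6, h7⟩ := key a₁ b₁ h1 h3
    obtain ⟨ℓ₂, h8, h9⟩ := key a₂ b₂ h2 (lt_trans h4 h5)
    have h10 := hncx hcan hO _ ℓ₁ _ _ ℓ₂ _ h6 h7 h8 h9 (Nat.cast_lt.2 h5) (Nat.cast_lt.2 h4)
    simp only [Nat.cast_lt] at h10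
    exact h10
  have hsupp : ∀ i j, G₂.Adj i j → i ∈ T ∧ j ∈ T := by
    intro i j h
    rw [hT, Set.mem_toFinset, Set.mem_toFinset]
    exact ⟨⟨j, h⟩, ⟨i, h.symm⟩⟩
  have hnc₂' : NC G₂ (fun v => x (ev (ψ v))) (fun v => y (ev (ψ v))) := by
    intro a₁ b₁ a₂ b₂ h1 h2 h3 h4 h5
    obtain ⟨ha₁, hb₁⟩ := hsupp _ _ h1
    obtain ⟨ha₂, hb₂⟩ := hsupp _ _ h2
    have h10 := hnc₂ a₁ b₁ a₂ b₂ h1 h2 ((hcy _ ha₁ _ hb₁).1 h3) ((hcy _ ha₂ _ hb₁).1 h4)
      ((hcy _ hb₁ _ hb₂).1 h5)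
    simp only [hcx _ ha₁ _ ha₂, hcx _ ha₂ _ hb₁, hcx _ hb₁ _ ha₂, hcx _ ha₂ _ ha₁]
    exact h10
  have hd₁ := hexp G₁ (8 * (Fintype.card (W n) + 1)) (Fintype.card (W n))
    (fun v => x (ev v)) (fun v => y (ev v)) (hx1.comp ev_inj) (hy1.comp ev_inj)
    (fun v => hx2 _) le_rfl hnc₁
  have hd₂ := hexp G₂ (8 * (Fintype.card (W n) + 1)) (Fintype.card (W n))
    (fun v => x (ev (ψ v))) (fun v => y (ev (ψ v))) ((hx1.comp ev_inj).comp hψ)
    ((hy1.comp ev_inj).comp hψ) (fun v => hx2 _) le_rfl hnc₂'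
  refine ⟨Finset.univ.image (pt (8 * (Fintype.card (W n) + 1)) (fun v : Fin n => x (ev v))
    (fun v => y (ev v))), ?_, ⟨_, hd₁, fun u => Finset.mem_image_of_mem _ (Finset.mem_univ _)⟩,
    ⟨_, hd₂, fun u => ?_⟩⟩
  · rw [Finset.card_image_of_injective _ hd₁.inj, Finset.card_univ, Fintype.card_fin]
  · exact Finset.mem_image.2 ⟨ψ u, Finset.mem_univ _, rfl⟩

end Pool.Agent.SGK.H90
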