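import Pool.Agent.SGK.Stmts

noncomputable section

namespace Pool.Agent.SGK.H90

open Pool.Agent.SGE Pool.Agent.SGK

theorem can_inv {V : Type} {a b v : V} {C : List V} {ℓ : List V} {S : List (V × List V)}
    (h : Can a b C ((v, ℓ) :: S)) : ∃ P p mid q Q, ℓ = p :: (mid ++ [q]) ∧
      C = P ++ p :: v :: q :: Q ∧ Can a b (P ++ p :: (mid ++ q :: Q)) S ∧ v ≠ a ∧ v ≠ b ∧
      ∀ x ∈ S, x.1 ≠ v := by
  cases h with
  | step h ha hb hv => exact ⟨_, _, _, _, _, rfl, rfl, h, ha, hb, hv⟩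

theorem rst (hdet : DetStmt) : RstStmt := by
  intro V a b C₁ S₁ S₂ h1 h2 T
  induction T with
  | nil =>
    intro C hC _
    rw [List.nil_append] at hC ⊢
    rw [hdet hC h1]
    exact h2
  | cons y T ih =>
    intro C hC hd
    obtain ⟨v, ℓ⟩ := y
    rw [List.cons_append] at hC ⊢
    obtain ⟨P, p, mid, q, Q, rfl, rfl, h, ha, hb, hv⟩ := can_inv hC
    refine Can.step (ih _ h fun x hx => hd x (List.mem_cons_of_mem _ hx)) ha hb ?_
    intro x hx
    rcases List.mem_append.1 hx with hx | hx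
    · exact hv x (List.mem_append_left _ hx)
    · exact fun h => hd _ List.mem_cons_self x hx h.symm

end Pool.Agent.SGK.H90
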