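import Pool.Agent.Helper90_SGK.Fin2
import Pool.Agent.Helper29_SGE.Main
import Pool.Agent.Helper2_SGL.CNJ
import Pool.Agent.Helper27_SGK.LEX
import Pool.Agent.Helper77_SGK.CJO
import Pool.Agent.Helper52_SGK.KIR
import Pool.Agent.Helper45_SGK.KXM
import Pool.Agent.Helper8_SGK.STP
import Pool.Agent.Helper51_SGK.MAP
import Pool.Agent.Helper34_SGK.DET
import Pool.Agent.Helper59_SGK.SUB
import Pool.Agent.Helper40_SGK.C3A
import Pool.Agent.Helper24_SGK.CO3
import Pool.Agent.Helper61_SGK.SEL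
import Pool.Agent.Helper4_SGK.ROT
import Pool.Agent.Helper90_SGK.Rst

/-!
# Squad SGK: composition
-/

noncomputable section

namespace Pool.Agent.SGK.H90

open Pool.Agent.SGE Pool.Agent.SGK

theorem cnjS : CnjStmt := by
  intro U B _ _ p t x y hp ht hx hy h
  exact Pool.Agent.SGL.H2.cnj p t x y hp ht hx hy h

theorem lexS : LexStmt := H27.lex

theorem cjoS : CjoStmt := H77.cjo cnjS lexS

theorem kirS : KirStmt := H52.kir (Pool.Agent.SGE.H20.int Pool.Agent.SGE.H29.cb)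

theorem kxmS : KxmStmt := H45.kxm

theorem stpS : StpStmt := H8.stp Pool.Agent.SGE.H29.cb kxmS

theorem detS : DetStmt := H34.det Pool.Agent.SGE.H29.cb

theorem subS : SubStmt := H59.sub Pool.Agent.SGE.H29.cb detS

theorem co3S : Co3Stmt := H24.co3 Pool.Agent.SGE.H29.cb (H40.c3a Pool.Agent.SGE.H29.cb)

theorem rotS : RotStmt := H4.rot Pool.Agent.SGE.H29.cb detS (rst detS) subS

theorem selS : SelStmt :=
  H61.sel Pool.Agent.SGE.H29.geoStmt Pool.Agent.SGE.H29.cb Pool.Agent.SGE.H29.mir H51.map rotS co3S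

theorem mainS (hzon : ZonStmt) : Main2Stmt :=
  fin2 Pool.Agent.SGE.H29.geoStmt (Pool.Agent.SGE.H20.int Pool.Agent.SGE.H29.cb)
    Pool.Agent.SGE.H32.ncx0 Pool.Agent.SGE.H56.exp selS kirS hzon cjoS lexS

end Pool.Agent.SGK.H90
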